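import Mathlib
set_option autoImplicit false

namespace Pool.Agent.Results.MP_8ac8bf_al.NotUnique

variable {K V : Type} [Field K] [AddCommGroup V] [Module K V]

/-- `A` is diagonalizable, `th 0, …, th d` lists its distinct eigenvalues, and `B` acts
tridiagonally on the eigenspaces of `A` in this order. -/
def Tri (A B : Module.End K V) : Prop :=
  ∃ (d : ℕ) (th : Fin (d + 1) → K), Function.Injective th ∧
    (∀ i, A.eigenspace (th i) ≠ ⊥) ∧ (⨆ i, A.eigenspace (th i)) = ⊤ ∧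
    ∀ i, (A.eigenspace (th i)).map B ≤
      ⨆ j : {j : Fin (d + 1) // (j : ℕ) ≤ i + 1 ∧ (i : ℕ) ≤ j + 1}, A.eigenspace (th j.1)

/-- Tridiagonal pair. -/
def TDPair (A B : Module.End K V) : Prop :=
  Tri A B ∧ Tri B A ∧
    ∀ W : Submodule K V, W.map A ≤ W → W.map B ≤ W → W = ⊥ ∨ W = ⊤

/-- Nonzero symmetric invariant bilinear form. -/
def InvForm (A B : Module.End K V) (f : LinearMap.BilinForm K V) : Prop :=
  f ≠ 0 ∧ (∀ u v, f u v = f v u) ∧ (∀ u v, f (A u) v = f u (A v)) ∧ ∀ u v, f (B u) v = f u (B v)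

lemma tri_of (A B : Module.End K V) (hA : ∀ v, A (A v) = A v) (x y : V) (hx : x ≠ 0)
    (hx' : A x = 0) (hy : y ≠ 0) (hy' : A y = y) : Tri A B := by
  have htop : ∀ W : Submodule K V, A.eigenspace 0 ≤ W → A.eigenspace 1 ≤ W → W = ⊤ := by
    intro W h0 h1
    rw [eq_top_iff]
    intro v _
    have : v = (v - A v) + A v := by abel
    rw [this]
    exact add_mem (h0 (by simp [hA])) (h1 (by simp [hA]))
  refine ⟨1, ![0, 1], ?_, ?_, ?_, ?_⟩
  · intro i j h
    fin_cases i <;> fin_cases j <;> simp_all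
  · intro i
    fin_cases i
    · exact (Submodule.ne_bot_iff _).mpr ⟨x, by simp [hx'], hx⟩
    · exact (Submodule.ne_bot_iff _).mpr ⟨y, by simp [hy'], hy⟩
  · exact htop _ (le_iSup (fun i => A.eigenspace (![0, 1] i)) 0)
      (le_iSup (fun i => A.eigenspace (![0, 1] i)) 1)
  · intro i
    have hi := i.2
    exact le_top.trans (htop _
      (le_iSup (fun j : {j : Fin 2 // (j : ℕ) ≤ i + 1 ∧ (i : ℕ) ≤ j + 1} =>
        A.eigenspace (![0, 1] j.1)) ⟨0, by simp, by simp; omega⟩)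
      (le_iSup (fun j : {j : Fin 2 // (j : ℕ) ≤ i + 1 ∧ (i : ℕ) ≤ j + 1} =>
        A.eigenspace (![0, 1] j.1)) ⟨1, by simp, by have := i.2; simp only [Fin.val_one]; omega⟩)).ge

instance : Fact (Nat.Prime 2) := ⟨Nat.prime_two⟩

abbrev M := Matrix (Fin 4) (Fin 4) (ZMod 2)

def a : M := !![1, 0, 0, 0; 0, 1, 0, 0; 0, 0, 0, 0; 0, 0, 0, 0]
def b : M := !![0, 1, 1, 0; 1, 1, 0, 1; 1, 0, 1, 1; 0, 1, 1, 0]
def g2 : M := !![0, 1, 0, 0; 1, 1, 0, 0; 0, 0, 0, 1; 0, 0, 1, 1]

def st (v : Fin 4 → ZMod 2) : Fin 4 → ZMod 2 :=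
  a.mulVec v + b.mulVec v + a.mulVec (b.mulVec (a.mulVec v))

lemma trans1 : ∀ w : Fin 4 → ZMod 2, w ≠ 0 → ∃ k < 15, st^[k] w = ![1, 0, 0, 0] := by
  decide +kernel

lemma trans2 : ∀ w : Fin 4 → ZMod 2, w ≠ 0 → ∃ k < 15, st^[k] ![1, 0, 0, 0] = w := by
  decide +kernel

theorem result : ∃ (K V : Type) (_ : Field K) (_ : AddCommGroup V) (_ : Module K V)
    (A B : Module.End K V), Module.Finite K V ∧ Nontrivial V ∧ TDPair A B ∧
    ∃ f g : LinearMap.BilinForm K V, InvForm A B f ∧ InvForm A B g ∧ ∀ c : K, g ≠ c • f := by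
  refine ⟨ZMod 2, Fin 4 → ZMod 2, inferInstance, inferInstance, inferInstance,
    a.mulVecLin, b.mulVecLin, inferInstance, inferInstance, ⟨?_, ?_, ?_⟩,
    Matrix.toLinearMap₂' (ZMod 2) (1 : M), Matrix.toLinearMap₂' (ZMod 2) g2, ?_, ?_, ?_⟩
  · exact tri_of _ _ (by simp only [Matrix.mulVecLin_apply]; decide +kernel) ![0, 0, 1, 0]
      ![1, 0, 0, 0] (by decide) (by simp only [Matrix.mulVecLin_apply]; decide +kernel)
      (by decide) (by simp only [Matrix.mulVecLin_apply]; decide +kernel)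
  · exact tri_of _ _ (by simp only [Matrix.mulVecLin_apply]; decide +kernel) ![1, 0, 0, 1]
      ![0, 1, 1, 0] (by decide) (by simp only [Matrix.mulVecLin_apply]; decide +kernel)
      (by decide) (by simp only [Matrix.mulVecLin_apply]; decide +kernel)
  · intro W ha hb
    have h1 : ∀ v ∈ W, a.mulVec v ∈ W := fun v hv => ha ⟨v, hv, rfl⟩
    have h2 : ∀ v ∈ W, b.mulVec v ∈ W := fun v hv => hb ⟨v, hv, rfl⟩
    have h3 : ∀ k, ∀ v ∈ W, st^[k] v ∈ W := by
      intro k
      induction k with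
      | zero => exact fun v hv => hv
      | succ k ih =>
        exact fun v hv => ih _ (add_mem (add_mem (h1 v hv) (h2 v hv)) (h1 _ (h2 _ (h1 v hv))))
    rcases eq_or_ne W ⊥ with h | h
    · exact Or.inl h
    · right
      obtain ⟨w, hw, hw0⟩ := (Submodule.ne_bot_iff _).mp h
      obtain ⟨k, _, hk⟩ := trans1 w hw0
      rw [eq_top_iff]
      intro v _
      by_cases hv : v = 0
      · rw [hv]; exact zero_mem _
      · obtain ⟨l, _, hl⟩ := trans2 v hv
        rw [← hl, ← hk]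
        exact h3 _ _ (h3 _ _ hw)
  · refine ⟨fun h => ?_, ?_, ?_, ?_⟩
    · have := congrArg (fun f => f ![1, 0, 0, 0] ![1, 0, 0, 0]) h
      simp only [Matrix.toLinearMap₂'_apply', LinearMap.zero_apply] at this
      revert this; decide +kernel
    all_goals simp only [Matrix.toLinearMap₂'_apply', Matrix.mulVecLin_apply]; decide +kernel
  · refine ⟨fun h => ?_, ?_, ?_, ?_⟩
    · have := congrArg (fun f => f ![1, 0, 0, 0] ![0, 1, 0, 0]) h
      simp only [Matrix.toLinearMap₂'_apply', LinearMap.zero_apply] at this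
      revert this; decide +kernel
    all_goals simp only [Matrix.toLinearMap₂'_apply', Matrix.mulVecLin_apply]; decide +kernel
  · intro c h
    have := congrArg (fun f => f ![1, 0, 0, 0] ![0, 1, 0, 0]) h
    simp only [Matrix.toLinearMap₂'_apply', LinearMap.smul_apply] at this
    revert c; decide +kernel

end Pool.Agent.Results.MP_8ac8bf_al.NotUnique
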